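import Mathlib

/-! Alternating groups are generated by four elements of bounded order. -/

set_option autoImplicit false

namespace Pool.Agent.P.MP_042d8e_al.UK

open Subgroup Equiv Equiv.Perm

variable {X : Type} [Fintype X] [DecidableEq X]

theorem pow24 {σ : Perm X} (h : σ.support.card ≤ 4) : σ ^ 24 = 1 := by
  rw [← orderOf_dvd_iff_pow_eq_one, ← lcm_cycleType, Multiset.lcm_dvd]
  exact fun n hn => Nat.dvd_factorial (by have := two_le_of_mem_cycleType hn; omega)
    ((le_card_support_of_mem_cycleType hn).trans h)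

theorem perm_gen (h : 2 ≤ Fintype.card X) : ∃ (r : Fin 2 → Perm X) (x y : X), x ≠ y ∧
    (∀ i, r i * r i = 1) ∧ closure (Set.range r ∪ {swap x y}) = ⊤ := by
  obtain ⟨n, hn⟩ := Nat.exists_eq_add_of_le' h
  let e := (Fintype.equivFinOfCardEq hn).symm
  let r : Fin 2 → Perm (Fin (n + 2)) := ![finRotate _ * Equiv.neg _, Equiv.neg _]
  refine ⟨fun i => e.permCongrHom (r i), e 0, e (finRotate _ 0), by simp, fun i => ?_, ?_⟩
  · rw [← map_mul, EmbeddingLike.map_eq_one_iff]
    fin_cases i <;> ext <;> simp [r]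
  · have h1 := congrArg (map e.permCongrHom.toMonoidHom)
      (closure_cycle_adjacent_swap (isCycle_finRotate (n := n)) support_finRotate 0)
    rw [map_top_of_surjective _ e.permCongrHom.surjective, MonoidHom.map_closure] at h1
    rw [eq_top_iff, ← h1, closure_le]
    rintro _ ⟨_, rfl | rfl, rfl⟩
    · rw [show finRotate (n + 2) = r 0 * r 1 by ext; simp [r], map_mul]
      exact mul_mem (subset_closure (.inl ⟨0, rfl⟩)) (subset_closure (.inl ⟨1, rfl⟩))
    · exact subset_closure (.inr (by ext; simp [swap_apply_def, symm_apply_eq]; split_ifs <;> simp))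

theorem alt_gen (h : 2 ≤ Fintype.card X) : ∃ g : Fin 2 × Bool → alternatingGroup X,
    (∀ i, g i ^ 48 = 1) ∧ closure (Set.range g) = ⊤ := by
  obtain ⟨r, x, y, hxy, h1, h2⟩ := perm_gen h
  let τ := swap x y
  have t1 : τ * τ = 1 := swap_mul_self x y
  let e : Fin 2 → Perm X := fun i => if sign (r i) = 1 then r i else r i * τ
  have e1 : ∀ i, e i ∈ alternatingGroup X := fun i => by
    rcases Int.units_eq_one_or (sign (r i)) with c | c <;> simp [e, c, τ, hxy]
  have e2 : ∀ i, e i ^ 48 = 1 := fun i => by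
    rw [show 48 = 2 * 24 from rfl, pow_mul, pow_two]
    simp only [e]
    split_ifs
    · rw [h1, one_pow]
    · rw [show r i * τ * (r i * τ) = swap (r i x) (r i y) * τ by
        rw [swap_apply_apply, inv_eq_of_mul_eq_one_right (h1 i)]; simp only [τ, mul_assoc]]
      exact pow24 ((Finset.card_le_card (support_mul_le _ _)).trans ((Finset.card_union_le _ _).trans
        (by rw [card_support_swap hxy, card_support_swap ((r i).injective.ne hxy)])))
  let c : alternatingGroup X ≃* alternatingGroup X := MulAut.conjNormal τ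
  let g : Fin 2 × Bool → alternatingGroup X := fun i =>
    if i.2 then c ⟨_, e1 i.1⟩ else ⟨_, e1 i.1⟩
  refine ⟨g, fun i => ?_, ?_⟩
  · have : (⟨_, e1 i.1⟩ : alternatingGroup X) ^ 48 = 1 := Subtype.ext (e2 _)
    simp only [g]
    split_ifs
    · rw [← map_pow, this, map_one]
    · exact this
  let H := (closure (Set.range g)).map (alternatingGroup X).subtype
  have a1 : ∀ i, e i ∈ H := fun i => ⟨_, subset_closure ⟨(i, false), rfl⟩, rfl⟩
  have a2 : ∀ a ∈ H, τ * a * τ ∈ H := by
    rintro _ ⟨a, ha, rfl⟩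
    refine ⟨c a, (closure_le ((closure (Set.range g)).comap c.toMonoidHom)).2 ?_ ha, by
      simp [c, τ]⟩
    rintro _ ⟨⟨i, _ | _⟩, rfl⟩
    · exact subset_closure ⟨(i, true), rfl⟩
    · exact subset_closure ⟨(i, false), Subtype.ext (by simp [g, c, τ, ← mul_assoc])⟩
  have a3 : ∀ a : Perm X, a ∈ H ∨ a * τ ∈ H := fun a => by
    have ha : a ∈ closure (Set.range r ∪ {τ}) := h2 ▸ mem_top a
    have a4 : ∀ a ∈ Set.range r ∪ {τ}, a * a = 1 ∧ (a ∈ H ∨ a * τ ∈ H) := by
      rintro _ (⟨i, rfl⟩ | rfl)
      · have := a1 i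
        simp only [e] at this
        exact ⟨h1 i, by split_ifs at this <;> simp [this]⟩
      · exact ⟨t1, .inr (t1 ▸ one_mem _)⟩
    induction ha using closure_induction'' with
    | one => exact .inl (one_mem _)
    | mem a ha => exact (a4 a ha).2
    | inv_mem a ha => exact (inv_eq_of_mul_eq_one_right (a4 a ha).1).symm ▸ (a4 a ha).2
    | mul a b _ _ ha hb =>
      rcases ha with ha | ha <;> rcases hb with hb | hb
      · exact .inl (mul_mem ha hb)
      · exact .inr (by rw [mul_assoc]; exact mul_mem ha hb)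
      · exact .inr (by simpa [mul_assoc, ← mul_assoc τ τ, t1] using mul_mem ha (a2 _ hb))
      · exact .inl (by simpa [mul_assoc, ← mul_assoc τ τ, t1] using mul_mem ha (a2 _ hb))
  refine eq_top_iff.2 fun a _ => (mem_map_iff_mem (alternatingGroup X).subtype_injective).1
    ((a3 a.1).resolve_right fun hh => ?_)
  have := mem_alternatingGroup.1 (map_subtype_le _ hh)
  simp [τ, hxy, mem_alternatingGroup.1 a.2] at this

end Pool.Agent.P.MP_042d8e_al.UK
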