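import Pool.Agent.P.MP_042d8e_al.CK.Dat

/-! Portraits on a tree with growing alphabets. -/

set_option autoImplicit false

open scoped commutatorElement

namespace Pool.Agent.P.MP_042d8e_al.UK

open Po CK Subgroup

variable {X S I : Type} {Q : ℕ → Type} [Group S] [MulAction S X] [∀ i, Group (Q i)]

theorem decomp' (M : Subgroup (Po X S)) {n : ℕ} {s : Set (List X)} (hs : s.Finite) :
    (∀ u ∈ s, u.length = n) → ∀ g : Po X S, g ∈ St n →
      (∀ u : List X, u.length = n → u ∉ s → sec g u = 1) → (∀ u ∈ s, loc u (sec g u) ∈ M) →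
      g ∈ M := by
  induction s, hs using Set.Finite.induction_on with
  | empty =>
    intro _ g hg h1 _
    rw [ext_St hg (one_mem _) fun u hu => h1 u hu (by simp)]
    exact one_mem _
  | @insert a s ha _ ih =>
    intro h0 g hg h1 h2
    have hn := h0 a (by simp)
    have h3 : ∀ u : List X, u.length = n → u ≠ a →
        sec (loc a (sec g a)⁻¹ * g) u = sec g u := fun u hu hne => by
      rw [sec_mul_St _ hg hu.le, sec_loc_ne _ (hu.trans hn.symm) hne, one_mul]
    have h4 := ih (fun u hu => h0 u (by simp [hu])) (loc a (sec g a)⁻¹ * g)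
      (mul_mem (hn ▸ loc_St _ _) hg) (fun u hu hs => by
        by_cases hne : u = a
        · rw [hne, sec_mul_St _ hg hn.le, sec_loc, inv_mul_cancel]
        · rw [h3 u hu hne, h1 u hu (by simp [hne, hs])])
      (fun u hu => by
        rw [h3 u (h0 u (by simp [hu])) fun hh => ha (hh ▸ hu)]
        exact h2 u (by simp [hu]))
    rw [map_inv] at h4
    simpa using mul_mem (h2 a (by simp)) h4

/-- sets of words with a bounded number of words of each length -/
def Sm (B : Set (List X)) : Prop :=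
  ∃ (J : Type) (_ : Finite J) (f : J → ℕ → List X), ∀ v ∈ B, ∃ j, v = f j v.length

theorem Sm.mul {A B C : Set (List X)} (hA : Sm A) (hB : Sm B) (g : Po X S)
    (h : ∀ v ∈ C, g • v ∈ A ∨ v ∈ B) : Sm C := by
  obtain ⟨J, _, f, h1⟩ := hA
  obtain ⟨J', _, f', h2⟩ := hB
  refine ⟨J ⊕ J', inferInstance, Sum.elim (fun j n => g⁻¹ • f j n) f', fun v hv => ?_⟩
  rcases h v hv with c | c
  · obtain ⟨j, e⟩ := h1 _ c
    exact ⟨.inl j, eq_inv_smul_iff.2 (by rwa [len] at e)⟩
  · exact (h2 v c).elim fun j e => ⟨.inr j, e⟩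

theorem Sm.of {B : Set (List X)} (h : ∀ n, ∃ z, ∀ v ∈ B, v.length = n → v = z) : Sm B := by
  choose z hz using h
  exact ⟨Unit, inferInstance, fun _ => z, fun v hv => ⟨(), hz _ v hv rfl⟩⟩

/-- the data of the construction -/
structure Dy (X S I : Type) (Q : ℕ → Type) [Group S] [MulAction S X] [∀ i, Group (Q i)] where
  lv : X → ℕ
  lv_smul : ∀ (s : S) (x : X), lv (s • x) = lv x
  fin : ∀ l, {x | lv x = l}.Finite
  A : ℕ → Subgroup S
  finA : ∀ l, Finite (A l)
  faith : ∀ l, ∀ s ∈ A l, (∀ x, lv x = l → s • x = x) → s = 1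
  perf : ∀ l, A l ≤ ⁅A l, A l⁆
  trans : ∀ x y, lv x = lv y → ∃ s ∈ A (lv x), s • x = y
  t : ℕ → (∀ i, Q i) →* S
  tA : ∀ l q, t l q ∈ A l
  ker : ∀ l q, t l q = 1 ↔ ∀ i ≤ l, q i = 1
  o : ℕ → X
  a : ℕ → X
  lo : ∀ l, lv (o l) = l
  la : ∀ l, lv (a l) = l
  ao : ∀ l, a l ≠ o l
  t_o : ∀ l q, t l q • o l = o l
  mv : ∀ l, ∃ s ∈ A l, s • o l = o l ∧ s • a l ≠ a l
  gA : ℕ → I → S
  gA1 : ∀ l i, gA l i ^ 48 = 1
  gA2 : ∀ l, closure (Set.range (gA l)) = A l
  gQ : ∀ l, I → Q l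
  gQ1 : ∀ l i, gQ l i ^ 48 = 1
  gQ2 : ∀ l, closure (Set.range (gQ l)) = ⊤
  perfQ : ∀ l, ⊤ ≤ ⁅(⊤ : Subgroup (Q l)), (⊤ : Subgroup (Q l))⁆

namespace Dy

variable (D : Dy X S I Q)

/-- the vertices of the tree that starts at level `m` -/
def val (m : ℕ) : List X → Prop
  | [] => True
  | x :: v => D.lv x = m + v.length ∧ val m v

theorem val_smul (m : ℕ) (g : Po X S) : ∀ v, D.val m (g • v) ↔ D.val m v
  | [] => Iff.rfl
  | x :: v => by rw [smul_cons, val, val, D.lv_smul, len, val_smul m g v]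

theorem val_append (m : ℕ) (u : List X) :
    ∀ w, D.val m (w ++ u) ↔ D.val m u ∧ D.val (m + u.length) w
  | [] => by simp [val]
  | x :: w => by
    rw [List.cons_append, val, val, val_append m u w, List.length_append, add_comm w.length,
      add_assoc, and_left_comm]

@[simp] theorem val_one (m : ℕ) (x : X) : D.val m [x] ↔ D.lv x = m := by simp [val]

theorem val_fin (m : ℕ) : ∀ n, {u | D.val m u ∧ u.length = n}.Finite
  | 0 => (Set.finite_singleton []).subset fun _ h => List.length_eq_zero_iff.1 h.2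
  | n + 1 => (((D.fin (m + n)).image2 List.cons (val_fin m n))).subset fun u h => by
    obtain ⟨x, w, rfl⟩ := List.exists_cons_of_length_eq_add_one h.2
    have e : w.length = n := by simpa using h.2
    exact ⟨x, e ▸ h.1.1, w, ⟨h.1.2, e⟩, rfl⟩

theorem val_many (m : ℕ) : ∀ n, ∃ F : Finset (List X), F.card = n + 1 ∧
    ∀ v ∈ F, D.val m v ∧ v.length = n
  | 0 => ⟨{[]}, rfl, by simp [val]⟩
  | n + 1 => by
    classical
    obtain ⟨F, h1, h2⟩ := val_many m n
    obtain ⟨w, hw⟩ := Finset.card_pos.1 (h1.symm ▸ n.succ_pos : 0 < F.card)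
    refine ⟨insert (D.a (m + n) :: w) (F.image (D.o (m + n) :: ·)), ?_, ?_⟩
    · rw [Finset.card_insert_of_notMem (by simp [(D.ao _).symm]),
        Finset.card_image_of_injective _ List.cons_injective, h1]
    · simp only [Finset.mem_insert, Finset.mem_image]
      rintro _ (rfl | ⟨v, hv, rfl⟩) <;> simp [val, D.la, D.lo, *]

theorem val_ex (m n : ℕ) : ∃ v, D.val m v ∧ v.length = n := by
  obtain ⟨F, h1, h2⟩ := D.val_many m n
  exact (Finset.card_pos.1 (h1 ▸ n.succ_pos)).imp h2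

theorem not_sm (m : ℕ) : ¬ Sm {v | D.val m v} := by
  classical
  rintro ⟨J, _, f, h⟩
  have := Fintype.ofFinite J
  obtain ⟨F, h1, h2⟩ := D.val_many m (Fintype.card J)
  have h3 : F ⊆ Finset.univ.image (f · (Fintype.card J)) := fun v hv => by
    obtain ⟨j, e⟩ := h v (h2 v hv).1
    exact Finset.mem_image.2 ⟨j, Finset.mem_univ _, by rw [← (h2 v hv).2, ← e]⟩
  have := (Finset.card_le_card h3).trans Finset.card_image_le
  simp [h1] at this

open Classical in
/-- portraits that are constant on the levels -/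
noncomputable def L0 (m : ℕ) (τ : ℕ → S) : Po X S :=
  fun v => if D.val m v then τ (m + v.length) else 1

/-- portraits that are constant on the levels, as a homomorphism -/
noncomputable def Lq (m : ℕ) : (ℕ → S) →* Po X S :=
  MonoidHom.mk' (D.L0 m) fun a b => funext fun v => by
    simp only [mul_app, L0, len]
    split_ifs <;> simp_all [val_smul]

open Classical in
theorem Lq_app (m : ℕ) (τ : ℕ → S) (v : List X) :
    D.Lq m τ v = if D.val m v then τ (m + v.length) else 1 := rfl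

@[simp] theorem Lq_nil (m : ℕ) (τ : ℕ → S) : D.Lq m τ [] = τ m := if_pos trivial

open Classical in
theorem sec_Lq (m : ℕ) (τ : ℕ → S) (u : List X) :
    sec (D.Lq m τ) u = if D.val m u then D.Lq (m + u.length) τ else 1 := funext fun w => by
  rw [sec, Lq_app, val_append, List.length_append, add_comm w.length, ← add_assoc]
  by_cases h : D.val m u <;> simp [h, Lq_app]

theorem Lq_congr {m : ℕ} {τ τ' : ℕ → S} (h : ∀ l, m ≤ l → τ l = τ' l) : D.Lq m τ = D.Lq m τ' :=
  funext fun v => by rw [Lq_app, Lq_app, h _ (by omega)]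

/-- rooted elements -/
noncomputable def rt (m : ℕ) : S →* Po X S := (D.Lq m).comp (MonoidHom.mulSingle (fun _ => S) m)

/-- the copy of the group of labels -/
noncomputable def c (m : ℕ) : (∀ i, Q i) →* Po X S := (D.Lq m).comp (MonoidHom.pi D.t)

theorem rt_def (m : ℕ) (s : S) : D.rt m s = D.Lq m (Pi.mulSingle m s) := rfl
theorem c_def (m : ℕ) (q : ∀ i, Q i) : D.c m q = D.Lq m fun l => D.t l q := rfl
@[simp] theorem rt_nil (m : ℕ) (s : S) : D.rt m s [] = s := by simp [rt_def]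
@[simp] theorem c_nil (m : ℕ) (q : ∀ i, Q i) : D.c m q [] = D.t m q := by simp [c_def]

@[simp] theorem sec_rt (m : ℕ) (s : S) (x : X) : sec (D.rt m s) [x] = 1 := by
  rw [rt_def, sec_Lq]
  split_ifs
  · exact (D.Lq_congr fun l hl => Pi.mulSingle_eq_of_ne (by simp at hl; omega) _).trans (map_one _)
  · rfl

theorem sec_c (m : ℕ) (q : ∀ i, Q i) (x : X) :
    sec (D.c m q) [x] = if D.lv x = m then D.c (m + 1) q else 1 := by
  simp [c_def, sec_Lq]

theorem rt_loc (m : ℕ) (s : S) (x : X) (k : Po X S) :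
    D.rt m s * loc [x] k * (D.rt m s)⁻¹ = loc [s • x] k := by rw [conj_loc]; simp

/-- the labels concentrated at one place -/
def e (Q : ℕ → Type) [∀ i, Group (Q i)] (l : ℕ) : Q l →* ∀ i, Q i := MonoidHom.mulSingle Q l

theorem t_e {l k : ℕ} (h : l < k) (a : Q k) : D.t l (e Q k a) = 1 :=
  (D.ker _ _).2 fun _ hi => Pi.mulSingle_eq_of_ne (by omega) _

/-- the decorations -/
noncomputable def u (m : ℕ) : I ⊕ I → Po X S
  | .inl i => D.rt m (D.gA m i)
  | .inr i => D.c m (e Q (m + 1) (D.gQ _ i))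

theorem u_pow (m : ℕ) : ∀ j, D.u m j ^ 48 = 1
  | .inl i => by rw [u, ← map_pow, D.gA1, map_one]
  | .inr i => by rw [u, ← map_pow, ← map_pow, D.gQ1, map_one, map_one]

theorem exists_R : ∃ R : ℕ → I ⊕ I → Po X S, ∀ m j,
    R m j = loc [D.a m] (D.u (m + 1) j) * loc [D.o m] (R (m + 1) j) := by
  obtain ⟨R, h⟩ := exists_sol (fun p : ℕ × (I ⊕ I) => loc [D.a p.1] (D.u (p.1 + 1) p.2))
    (fun p => D.o p.1) (fun p => (p.1 + 1, p.2)) fun p => by rw [sec_loc1, if_neg (D.ao _).symm]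
  exact ⟨fun m j => R (m, j), fun m j => h _⟩

/-- the directed elements -/
noncomputable def R : ℕ → I ⊕ I → Po X S := D.exists_R.choose

theorem R_eq (m : ℕ) (j : I ⊕ I) :
    D.R m j = loc [D.a m] (D.u (m + 1) j) * loc [D.o m] (D.R (m + 1) j) := D.exists_R.choose_spec m j

theorem R_pow (m : ℕ) (j : I ⊕ I) : D.R m j ^ 48 = 1 :=
  uniq (fun _ => 1) D.o (· + 1) (A := fun m => D.R m j ^ 48) (B := fun _ => 1) (fun m => by
    rw [R_eq, (loc_comm1 (D.ao m) _ _).mul_pow, ← map_pow, ← map_pow, u_pow, map_one])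
    (fun _ => by simp) m

@[simp] theorem R_nil (m : ℕ) (j : I ⊕ I) : D.R m j [] = 1 := by
  rw [R_eq, mul_app, smul_nil, loc_nil1, loc_nil1, one_mul]

open Classical in
theorem sec_R (m : ℕ) (j : I ⊕ I) (x : X) : sec (D.R m j) [x] =
    if x = D.a m then D.u (m + 1) j else if x = D.o m then D.R (m + 1) j else 1 := by
  rw [R_eq, sec1, loc_nil1, one_smul, sec_loc1, sec_loc1]
  split_ifs with h1 h2
  · exact absurd (h1.symm.trans h2) (D.ao m)
  all_goals simp

/-- the vertices where the label is not visible -/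
def Bad (m : ℕ) (g : Po X S) (q : ∀ i, Q i) : Set (List X) :=
  {v | D.val m v ∧ ∀ r, (∀ i ≤ m, r i = q i) → g v ≠ D.t (m + v.length) r}

theorem sm_of {m : ℕ} {g : Po X S} {q : ∀ i, Q i} (h : ∀ v ∈ D.Bad m g q, v = []) :
    Sm (D.Bad m g q) := .of fun _ => ⟨[], fun v hv _ => h v hv⟩

theorem c_bad (m : ℕ) {q r : ∀ i, Q i} (h : ∀ i ≤ m, r i = q i) (v : List X) :
    v ∉ D.Bad m (D.c m r) q := fun hv => hv.2 r h (if_pos hv.1)

/-- labelled portraits -/
def Lab (m : ℕ) : Subgroup (Po X S × ∀ i, Q i) where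
  carrier := {p | Sm (D.Bad m p.1 p.2)}
  one_mem' := D.sm_of fun v hv => (hv.2 1 (fun _ _ => rfl) (map_one _).symm).elim
  mul_mem' {p p'} h h' := h.mul h' p'.1 fun v hv => by
    by_contra! hc
    simp only [Bad, Set.mem_ofPred_eq, val_smul, hv.1, true_and, not_forall, not_not, len] at hc
    obtain ⟨⟨r, a1, a2⟩, r', b1, b2⟩ := hc
    exact hv.2 (r * r') (fun i hi => by simp [a1 i hi, b1 i hi])
      (by rw [Prod.fst_mul, mul_app, a2, b2, map_mul])
  inv_mem' {p} h := h.mul h p.1⁻¹ fun v hv => .inl ⟨(D.val_smul _ _ _).2 hv.1, fun r a1 a2 =>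
    hv.2 r⁻¹ (fun i hi => by simp [a1 i hi]) (by
      rw [len] at a2
      rw [map_inv, ← a2, ← inv_app, smul_inv_smul, Prod.fst_inv])⟩

theorem Lab_triv {m : ℕ} {q : ∀ i, Q i} (h : (1, q) ∈ D.Lab m) : ∀ i ≤ m, q i = 1 := by
  by_contra hq
  obtain ⟨J, _, f, h⟩ := h
  exact D.not_sm m ⟨J, ‹_›, f, fun v hv => h v ⟨hv, fun r a b => hq fun i hi =>
    (a i hi).symm.trans ((D.ker _ _).1 b.symm i (by omega))⟩⟩

theorem u_bad (m : ℕ) : ∀ j, ∀ v ∈ D.Bad m (D.u m j) 1, v = []
  | .inl _, v, hv => by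
    rcases List.eq_nil_or_concat' v with rfl | ⟨w, x, rfl⟩
    · rfl
    · exact (hv.2 1 (fun _ _ => rfl) ((congrFun (D.sec_rt m _ x) w).trans (map_one _).symm)).elim
  | .inr _, v, hv => (D.c_bad m (fun _ hi => Pi.mulSingle_eq_of_ne (by omega) _) v hv).elim

theorem R_bad (j : I ⊕ I) : ∀ n m, ∃ z, ∀ v ∈ D.Bad m (D.R m j) 1, v.length = n → v = z
  | 0, _ => ⟨[], fun _ _ => List.length_eq_zero_iff.1⟩
  | n + 1, m => by
    obtain ⟨z, hz⟩ := R_bad j n (m + 1)
    refine ⟨if n = 0 then [D.a m] else z ++ [D.o m], fun v hv hn => ?_⟩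
    obtain rfl | ⟨w, x, rfl⟩ := List.eq_nil_or_concat' v
    · simp at hn
    have h1 : w ∈ D.Bad (m + 1) (sec (D.R m j) [x]) 1 := ⟨((D.val_append m _ w).1 hv.1).2,
      fun r a b => hv.2 r (fun i hi => a i (by omega)) (b.trans (by simp [add_comm, add_left_comm]))⟩
    have h2 : w.length = n := by simpa using hn
    rw [sec_R] at h1
    split_ifs at h1 with c1 c2
    · rw [D.u_bad _ j w h1] at h2 ⊢
      simp [← h2, c1]
    · rw [if_neg, hz w h1 h2, c2]
      rintro rfl
      rw [List.length_eq_zero_iff.1 h2] at h1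
      exact h1.2 1 (fun _ _ => rfl) (by simp)
    · exact (h1.2 1 (fun _ _ => rfl) (map_one _).symm).elim

end Dy

end Pool.Agent.P.MP_042d8e_al.UK
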