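import Pool.Agent.P.MP_042d8e_al.CK.Defs

/-! Branch actions on rooted trees. -/

set_option autoImplicit false

namespace Pool.Agent.P.MP_042d8e_al.UK

/-- `G` acts as a branch group on the locally finite rooted tree with vertex set `V`, level map
`lev` and parent map `par` -/
structure BranchOn (G V : Type) [Group G] [MulAction G V] (lev : V → ℕ) (par : V → V) : Prop where
  /-- there is exactly one root -/
  root : ∃! v : V, lev v = 0
  /-- the root is its own parent -/
  par_root : ∀ w : V, lev w = 0 → par w = w
  /-- the parent of any other vertex lies one level higher up -/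
  lev_par : ∀ w : V, lev w ≠ 0 → lev (par w) + 1 = lev w
  /-- the levels are finite -/
  fin : ∀ n : ℕ, {v : V | lev v = n}.Finite
  /-- every vertex has at least two children -/
  two : ∀ v : V, ∃ w₁ w₂ : V, w₁ ≠ w₂ ∧ par w₁ = v ∧ par w₂ = v ∧
    lev w₁ = lev v + 1 ∧ lev w₂ = lev v + 1
  /-- the action is by automorphisms of the tree -/
  act : ∀ (g : G) (w : V), lev (g • w) = lev w ∧ par (g • w) = g • par w
  /-- the action is faithful -/
  faith : ∀ g : G, (∀ v : V, g • v = v) → g = 1
  /-- the action is transitive on every level -/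
  trans : ∀ v w : V, lev v = lev w → ∃ g : G, g • v = w
  /-- the rigid stabilisers of the levels have finite index -/
  rist : ∀ n : ℕ, (Subgroup.closure {g : G | ∃ v : V, lev v = n ∧
    ∀ w : V, (∀ k : ℕ, par^[k] w ≠ v) → g • w = w}).FiniteIndex

/-- the pointwise stabiliser of level `n` -/
def levSt (G : Type) {V : Type} [Group G] [MulAction G V] (lev : V → ℕ) (n : ℕ) : Subgroup G :=
  ⨅ v : {v : V // lev v = n}, MulAction.stabilizer G v.1

end Pool.Agent.P.MP_042d8e_al.UK
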