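import Pool.Agent.P.MP_042d8e_al.CK.Dat

/-! Limits in the profinite completion and countably based profinite groups. -/

set_option autoImplicit false

namespace Pool.Agent.P.MP_042d8e_al.UK

open CK ProfiniteGrp.ProfiniteCompletion TopologicalSpace

theorem lim_embed {G B : Type} [Group G] [Group B] [TopologicalSpace B] {E M : ℕ → Subgroup G}
    (hE : Antitone E) (hM : Antitone M) (h1 : ∀ N : FN G, ∃ n, E n ≤ N.toSubgroup)
    (h2 : ∀ n, (E n).FiniteIndex) (T : ℕ → B →* G) (t1 : ∀ n, IsLocallyConstant (T n))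
    (t2 : ∀ n b, T n b ∈ M n) (t3 : ∀ n b, (T (n + 1) b)⁻¹ * T n b ∈ E n)
    (t4 : ∀ b, (∀ n, T n b ∈ E n) → b = 1) :
    ∃ f : B →* Hat G, Continuous f ∧ Function.Injective f ∧ ∀ b, f b ∈ seqKer M := by
  have a1 : ∀ b n k, n ≤ k → (T k b)⁻¹ * T n b ∈ E n := fun b n k h => by
    induction k, h using Nat.le_induction with
    | base => simp
    | succ k h ih => simpa [mul_assoc] using mul_mem (hE h (t3 k b)) ih
  choose ν hν using h1
  have a2 : ∀ (N : FN G) b k, ν N ≤ k → (T (ν N) b : G ⧸ N.toSubgroup) = T k b :=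
    fun N b k h => (QuotientGroup.eq.2 (hν N (a1 b _ k h))).symm
  let F : B → Hat G := fun b => ⟨fun N => (T (ν N) b : G ⧸ N.toSubgroup), fun {N N'} f =>
    (congrArg (QuotientGroup.map _ _ (MonoidHom.id G) f.le) (a2 N b _ (le_max_left _ _))).trans
      (a2 N' b _ (le_max_right _ _)).symm⟩
  refine ⟨MonoidHom.mk' F fun a b => pj_ext fun N => congrArg QuotientGroup.mk (map_mul (T _) a b),
    cont_of fun N => (t1 _).comp QuotientGroup.mk, (injective_iff_map_eq_one _).2 fun b hb =>
      t4 b fun n => ?_, fun b => Subgroup.mem_iInf.2 fun n => mem_cl.2 fun N =>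
        ⟨_, hM (le_max_right _ _) (t2 _ b), a2 N b _ (le_max_left _ _)⟩⟩
  obtain ⟨N, hN⟩ := exists_core (E n)
  have := (a2 N b _ (le_max_left _ n)).symm.trans (congrArg (pj N) hb)
  simpa using mul_mem (hN _ ((QuotientGroup.eq_one_iff _).1 this)) (a1 b n _ (le_max_right (ν N) n))

theorem sc_of_embeds {G : Type} [Group G] (h : Group.FG G) {P : ProfiniteGrp.{0}}
    {M : ℕ → Subgroup G} (hP : Embeds P M) : SecondCountableTopology P := by
  obtain ⟨f, h1, h2, -⟩ := hP
  have := (countable_fi h).to_subtype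
  have : Countable (FN G) := Function.Injective.countable
    (f := fun N => (⟨N.1, N.isFiniteIndex'⟩ : {N : Subgroup G | N.FiniteIndex}))
    fun _ _ e => FiniteIndexNormalSubgroup.toSubgroup_injective (congrArg Subtype.val e)
  have : ∀ N, Finite ((diagram (GrpCat.of G)).obj N).toProfinite.toTop := fun N =>
    inferInstanceAs (Finite (G ⧸ N.toSubgroup))
  have : SecondCountableTopology (Hat G) := Topology.IsInducing.subtypeVal.secondCountableTopology
  exact (h1.isClosedEmbedding h2).isInducing.secondCountableTopology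

theorem db_inj {Y Z : Type} [Fintype Y] [DecidableEq Y] [Fintype Z] [DecidableEq Z] :
    Function.Injective (db Y Z) := (injective_iff_map_eq_one _).2 fun p h => Equiv.ext fun y => by
  simpa [h] using (db_1 (Z := Z) p y).symm

/-- the groups of labels -/
abbrev Qn (m : ℕ) : Type := alternatingGroup (Al (Fin m) Empty)

theorem exists_emb (P : ProfiniteGrp.{0}) [SecondCountableTopology P] :
    ∃ γ : ∀ m, P →* Qn m, (∀ m, IsLocallyConstant (γ m)) ∧ ∀ p, (∀ m, γ m p = 1) → p = 1 := by
  have : Countable (Clopens P) := Clopens.countable_iff_secondCountable.2 ‹_›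
  have : Countable (OpenNormalSubgroup P) := Function.Injective.countable
    (f := fun U => (⟨U, U.toOpenSubgroup.isClopen⟩ : Clopens P))
    fun _ _ e => SetLike.coe_injective (congrArg Clopens.carrier e)
  obtain ⟨e, he⟩ := exists_injective_nat (OpenNormalSubgroup P)
  have h : ∀ m, ∃ γ : P →* Qn m, IsLocallyConstant γ ∧ ∀ U : OpenNormalSubgroup P,
      (e U).pair (Nat.card (P ⧸ U.toSubgroup)) = m → ∀ p, γ p = 1 → p ∈ U := fun m => by
    by_cases c : ∃ U : OpenNormalSubgroup P, (e U).pair (Nat.card (P ⧸ U.toSubgroup)) = m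
    · obtain ⟨U, rfl⟩ := c
      have : DiscreteTopology (P ⧸ U.toSubgroup) := QuotientGroup.discreteTopology U.isOpen
      let j := (Finite.equivFin (P ⧸ U.toSubgroup)).toEmbedding.trans
        (Fin.castLEEmb (Nat.right_le_pair (e U) _))
      let δ := (db _ Empty).comp ((Equiv.Perm.viaEmbeddingHom j).comp (MulAction.toPermHom
        (P ⧸ U.toSubgroup) _))
      refine ⟨δ.comp (QuotientGroup.mk' _), ((IsLocallyConstant.iff_continuous _).2
        QuotientGroup.continuous_mk).comp δ, fun V hV p hp => ?_⟩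
      rw [he (Nat.pair_eq_pair.1 hV).1]
      exact (QuotientGroup.eq_one_iff p).1 ((db_inj.comp ((Equiv.Perm.viaEmbeddingHom_injective j).comp
        MulAction.toPerm_injective)) (hp.trans (map_one δ).symm))
    · exact ⟨1, IsLocallyConstant.const 1, fun U h => absurd ⟨U, h⟩ c⟩
  choose γ h1 h2 using h
  refine ⟨γ, h1, fun p hp => by_contra fun c => ?_⟩
  obtain ⟨U, hU⟩ := ProfiniteGrp.exist_openNormalSubgroup_sub_open_nhds_of_one
    (isOpen_compl_singleton (x := p)) (Ne.symm c)
  exact hU (h2 _ U rfl p (hp _)) rfl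

end Pool.Agent.P.MP_042d8e_al.UK
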