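import Pool.Agent.P.MP_042d8e_al.UK.Grp
import Pool.Agent.P.MP_042d8e_al.UK.Lim
import Pool.Agent.P.MP_042d8e_al.UK.Defs

/-! The group is branch and just infinite, and the kernel contains the group of labels. -/

set_option autoImplicit false

open scoped commutatorElement

namespace Pool.Agent.P.MP_042d8e_al.UK

open Po CK Subgroup

variable {X S I : Type} {Q : ℕ → Type} [Group S] [MulAction S X] [∀ i, Group (Q i)]

namespace Dy

variable (D : Dy X S I Q)

open Classical in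
/-- elements of a level stabiliser with sections in a subgroup -/
def Hs (H : Subgroup (Po X S)) (n : ℕ) : Subgroup (Po X S) where
  carrier := {g | g ∈ St n ∧ ∀ u, u.length = n → sec g u ∈ if D.val 0 u then H else ⊥}
  one_mem' := ⟨one_mem _, fun _ _ => one_mem _⟩
  mul_mem' {a _} ha hb := ⟨mul_mem ha.1 hb.1, fun u hu =>
    (sec_mul_St a hb.1 hu.le).symm ▸ mul_mem (ha.2 u hu) (hb.2 u hu)⟩
  inv_mem' ha := ⟨inv_mem ha.1, fun u hu => (sec_inv_St ha.1 hu.le).symm ▸ inv_mem (ha.2 u hu)⟩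

/-- the small subgroups -/
def E (n : ℕ) : Subgroup (Po X S) := D.Hs ⁅D.K n, D.K n⁆ n

/-- the approximations -/
noncomputable def T (n : ℕ) : (∀ i, Q i) →* Po X S :=
  (D.Lq 0).comp (MonoidHom.pi fun l => if l < n then 1 else (D.t l).comp (tr n))

theorem T_def (n : ℕ) (q : ∀ i, Q i) :
    D.T n q = D.Lq 0 fun l => if l < n then 1 else D.t l (tr n q) :=
  congrArg (D.Lq 0) (funext fun l => by rw [MonoidHom.pi_apply]; split_ifs <;> rfl)

/-- the tree -/
def V : SubMulAction (D.G 0) (List X) := ⟨{v | D.val 0 v}, fun g _ h => (D.val_smul 0 g.1 _).2 h⟩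

/-- the parent of a vertex -/
def par (v : D.V) : D.V := ⟨v.1.tail, by
  obtain ⟨_ | _, h⟩ := v
  exacts [h, h.2]⟩

variable {D} {H M : Subgroup (Po X S)} {n : ℕ}

theorem Hs_le (h : ∀ u, D.val 0 u → u.length = n → ∀ k ∈ H, loc u k ∈ M) : D.Hs H n ≤ M :=
  fun g hg => decomp' M (D.val_fin 0 n) (fun _ h => h.2) g hg.1
    (fun u hu hs => by simpa [show ¬ D.val 0 u from fun c => hs ⟨c, hu⟩] using hg.2 u hu)
    fun u hu => h u hu.1 hu.2 _ (by simpa [hu.1] using hg.2 u hu.2)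

theorem loc_Hs {u : List X} (hu : D.val 0 u) {k : Po X S} (hk : k ∈ H) :
    loc u k ∈ D.Hs H u.length := ⟨loc_St _ _, fun w hw => by
  by_cases c : w = u
  · simpa [c, hu]
  · rw [sec_loc_ne k hw c]; exact one_mem _⟩

theorem Lq_St {τ : ℕ → S} (h : ∀ l < n, τ l = 1) : D.Lq 0 τ ∈ St n := fun v hv => by
  simp [Lq_app, h _ hv]

theorem Lq_Hs {τ : ℕ → S} (h : ∀ l < n, τ l = 1) : D.Lq 0 τ ∈ D.Hs H n ↔ D.Lq n τ ∈ H := by
  refine ⟨fun c => ?_, fun c => ⟨Lq_St h, fun u hu => ?_⟩⟩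
  · obtain ⟨u, h1, h2⟩ := D.val_ex 0 n
    simpa [sec_Lq, h1, h2] using c.2 u h2
  · rw [sec_Lq]
    split_ifs <;> simp [*]

theorem E_anti : Antitone D.E := antitone_nat_of_succ_le fun n => Hs_le fun u hu hn k hk => by
  obtain ⟨x, v, rfl⟩ := List.exists_cons_of_length_eq_add_one hn
  obtain rfl : v.length = n := by simpa using hn
  exact (loc_cons x v k).symm ▸ loc_Hs hu.2
    (map_perf _ (fun _ => loc_K1 (hu.1.trans (zero_add _))) hk)

theorem loc_G {u : List X} (hu : D.val 0 u) {k : Po X S} (hk : k ∈ D.K u.length) :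
    loc u k ∈ D.G 0 := K_G (loc_K hu _ (by rwa [zero_add]))

theorem E_G : D.E n ≤ D.G 0 := Hs_le fun _ hu hn _ hk => loc_G hu (hn ▸ commutator_le_self _ hk)

theorem U_KK : D.U n ≤ ⁅D.K n, D.K n⁆ := U_perf.trans (commutator_mono U_K U_K)

theorem T_step (q : ∀ i, Q i) : (D.T (n + 1) q)⁻¹ * D.T n q ∈ D.E n := by
  rw [T_def, T_def, ← map_inv, ← map_mul]
  refine (Lq_Hs fun l hl => by simp [hl, hl.le]).2 ?_
  convert U_KK (mul_mem (rt_U (D.tA n (tr n q))) (ce_U (q _)⁻¹)) using 1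
  rw [rt_def, c_def, ← map_mul]
  refine D.Lq_congr fun l hl => ?_
  rcases hl.eq_or_lt with rfl | hl
  · simp [t_e]
  · simp [hl.not_ge, hl.not_gt, hl.ne', tr_succ]

theorem T_G (q : ∀ i, Q i) : ∀ n, D.T n q ∈ D.G 0
  | 0 => D.T_def 0 q ▸ c_G (tr_Fn 0 q)
  | n + 1 => by simpa using mul_mem (T_G q n) (inv_mem (E_G (T_step (n := n) q)))

theorem T_E {q : ∀ i, Q i} (h : D.T n q ∈ D.E n) : q n = 1 := by
  rw [T_def, E, Lq_Hs fun l hl => if_pos hl, D.Lq_congr fun l hl => if_neg hl.not_gt] at h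
  simpa [tr_app] using c_K (commutator_le_self _ h) n le_rfl

theorem G_faith {g : Po X S} (h : g ∈ D.G 0) (h1 : ∀ v, D.val 0 v → g • v = v) : g = 1 :=
  funext fun v => by
    by_cases c : D.val 0 v
    · exact D.faith _ _ (app_A h v) fun x hx => (List.cons.inj (h1 (x :: v) ⟨hx, c⟩)).1
    · exact congrFun (sec_inval h c) []

theorem key {N : Subgroup (D.G 0)} (hN : N.Normal) (h : N ≠ ⊥) :
    ∃ n, (D.E n).subgroupOf (D.G 0) ≤ N := by
  obtain ⟨⟨g, hg⟩, h1⟩ := ne_bot_iff_exists_ne_one.1 h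
  obtain ⟨v, hv, h2⟩ : ∃ v, D.val 0 v ∧ g.1 • v ≠ v := by
    by_contra! c
    exact h1 (Subtype.ext (Subtype.ext (G_faith g.2 c)))
  refine ⟨v.length, fun r hr => (mem_map_iff_mem (D.G 0).subtype_injective).1
    (Hs_le (fun u hu hn => (commutator_le (H₃ := comap (loc u) _)).2 fun a ha b hb => ?_) hr)⟩
  obtain ⟨k, hk, rfl⟩ := K_trans hv hu hn.symm
  refine grig (M := N.map _) (g := k * g.1 * k⁻¹) ?_ ⟨⁅⁅(⟨_, loc_G hu (hn ▸ ha)⟩ : D.G 0), _⁆,
    (⟨_, loc_G hu (hn ▸ hb)⟩ : D.G 0)⁆, commutator_le_left N ⊤ (commutator_mem_commutator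
      (commutator_le_right ⊤ N (commutator_mem_commutator trivial
        (hN.conj_mem g hg ⟨k, K_G hk⟩))) trivial), rfl⟩
  rwa [mul_smul, inv_smul_smul, mul_smul, Ne, smul_left_cancel_iff]

theorem G_inf : Infinite (D.G 0) := by
  choose u h1 h2 using D.val_ex 0
  choose s h3 _ h4 using D.mv
  refine .of_injective (fun n => ⟨loc (u n) (D.rt n (s n)),
    loc_G (h1 n) (by rw [h2]; exact U_K (rt_U (h3 n)))⟩)
    (.of_lt_imp_ne fun n k h e => h4 n ?_)
  have := loc_St (u k) (D.rt k (s k)) (u n) (by rwa [h2, h2])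
  rw [← Subtype.mk.inj e] at this
  rw [((congrFun (sec_loc _ _) []).trans (D.rt_nil _ _)).symm.trans this, one_smul]

theorem St_lev (n : ℕ) : (St n).subgroupOf (D.G 0) ≤ levSt (D.G 0) (fun v : D.V => v.1.length) n :=
  fun _ hg => mem_iInf.2 fun v => Subtype.ext (St_fix hg v.2.le)

variable [Finite I] [∀ i, Finite (Q i)]

theorem E_fi (n : ℕ) : ((D.E n).subgroupOf (D.G 0)).FiniteIndex := by
  have := KK_fi (D := D) (m := n)
  have := fun n => (D.val_fin 0 n).to_subtype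
  have := D.finA
  refine finiteIndex_of_fun (fun g => (fun (k : Fin n) (v : {v | D.val 0 v ∧ v.length = k}) =>
    (⟨g.1 v, app_A g.2 v⟩ : D.A _), fun u : {v | D.val 0 v ∧ v.length = n} =>
      ((⟨sec g.1 u, by simpa [u.2.2] using sec_val g.2 u.2.1⟩ : D.G n) :
        D.G n ⧸ ⁅D.K n, D.K n⁆.subgroupOf (D.G n)))) fun a b h => ?_
  obtain ⟨h1, h2⟩ := Prod.mk.inj h
  have h3 : ∀ v : List X, v.length < n → a.1 v = b.1 v := fun v hv => by
    by_cases c : D.val 0 v
    · exact congrArg Subtype.val (congrFun₂ h1 ⟨_, hv⟩ ⟨v, c, rfl⟩)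
    · exact (congrFun (sec_inval a.2 c) []).trans (congrFun (sec_inval b.2 c) []).symm
  refine ⟨inv_mul_mem_St h3, fun u hu => ?_⟩
  split_ifs with c
  · have h4 := QuotientGroup.eq.1 (congrFun h2 ⟨u, c, hu⟩)
    change sec (a.1⁻¹ * b.1) u ∈ _
    rwa [sec_mul, ← smul_congr (a := a.1) u fun w hw => h3 w (by omega), sec_inv]
  · exact sec_inval (a⁻¹ * b).2 c

theorem branch : BranchOn (D.G 0) D.V (·.1.length) D.par := by
  refine ⟨⟨⟨[], trivial⟩, rfl, fun w hw => Subtype.ext (List.length_eq_zero_iff.1 hw)⟩,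
    fun w hw => Subtype.ext ?_, fun w hw => ?_,
    fun n => .of_finite_image ((D.val_fin 0 n).subset ?_) Subtype.val_injective.injOn,
    fun v => ⟨⟨_ :: v, D.la _, v.2⟩, ⟨_ :: v, D.lo _, v.2⟩, by simp [D.ao], rfl, rfl, rfl, rfl⟩,
    fun g w => ⟨len g.1 w.1, by obtain ⟨_ | _, h⟩ := w <;> rfl⟩, fun g h => Subtype.ext
      (G_faith g.2 fun v hv => congrArg Subtype.val (h ⟨v, hv⟩)), fun v w h => ?_, fun n => ?_⟩
  · simp [par, List.length_eq_zero_iff.1 hw]
  · simp only [par, List.length_tail] at hw ⊢; omega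
  · rintro _ ⟨v, hv, rfl⟩
    exact ⟨v.2, hv⟩
  · obtain ⟨g, hg, h1⟩ := K_trans v.2 w.2 h
    exact ⟨⟨g, K_G hg⟩, Subtype.ext h1⟩
  · have := E_fi (D := D) n
    refine finiteIndex_of_le (H := (D.E n).subgroupOf (D.G 0)) fun r hr =>
      (mem_map_iff_mem (D.G 0).subtype_injective).1 (Hs_le (M := map _ _) (fun u hu hn k hk =>
        ⟨⟨_, loc_G hu (hn ▸ commutator_le_self _ hk)⟩, Subgroup.subset_closure ?_, rfl⟩) hr)
    refine ⟨⟨u, hu⟩, hn, fun w hw => Subtype.ext (loc_fix _ w.1 ?_)⟩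
    rintro ⟨t, e⟩
    refine hw t.length (Subtype.ext ?_)
    rw [Function.Semiconj.iterate_right (f := Subtype.val) (gb := List.tail) (fun _ => rfl), ← e]
    clear e
    induction t with
    | nil => rfl
    | cons x t ih => exact ih

theorem just {N : Subgroup (D.G 0)} (hN : N.Normal) (h : N ≠ ⊥) : N.FiniteIndex :=
  (key hN h).elim fun n h => have := E_fi (D := D) n; finiteIndex_of_le h

theorem embed {B : Type} [Group B] [TopologicalSpace B] (γ : ∀ m, B →* Q m)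
    (h1 : ∀ m, IsLocallyConstant (γ m)) (h2 : ∀ b, (∀ m, γ m b = 1) → b = 1) :
    ∃ f : B →* Hat (D.G 0), Continuous f ∧ Function.Injective f ∧
      ∀ b, f b ∈ seqKer (levSt (D.G 0) fun v : D.V => v.1.length) := by
  refine (lim_embed (M := fun n => (St n).subgroupOf (D.G 0)) (fun _ _ h _ hg => E_anti h hg)
    (fun _ _ h _ hg => St_anti h hg) (fun N => key inferInstance ?_)
    E_fi (fun n => ((D.T n).codRestrict _ (T_G · n)).comp (MonoidHom.pi γ)) (fun n => ?_)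
    (fun n b => mem_subgroupOf.2 (Lq_St fun l hl => by simp [hl])) (fun n b => T_step _)
    fun b h => h2 b fun n => T_E (h n)).imp fun f h => ⟨h.1, h.2.1, fun b => mem_iInf.2 fun n =>
      cl_mono (St_lev n) (mem_iInf.1 (h.2.2 b) n)⟩
  · have := G_inf (D := D)
    exact fun h => N.isFiniteIndex'.1 (by simp [h])
  · rw [IsLocallyConstant.iff_eventually_eq]
    intro b
    filter_upwards [(Filter.eventually_all_finite (Set.finite_Iic n)).2
      fun i _ => (h1 i).eventually_eq b] with b' h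
    refine Subtype.ext ((D.T_def _ _).trans (.trans ?_ (D.T_def _ _).symm))
    rw [show tr n (MonoidHom.pi γ b') = tr n (MonoidHom.pi γ b) from
      funext fun i => if_ctx_congr Iff.rfl (h i) fun _ => rfl]

end Dy

end Pool.Agent.P.MP_042d8e_al.UK
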