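import Pool.Agent.P.MP_042d8e_al.UK.Bas

/-! The groups of the construction and their branching subgroups. -/

set_option autoImplicit false

open scoped commutatorElement

namespace Pool.Agent.P.MP_042d8e_al.UK

open Po CK Subgroup

theorem cm1 {G : Type} [Group G] {g z : G} (h : Commute z g) (y : G) : ⁅y * z, g⁆ = ⁅y, g⁆ := by
  rw [commutatorElement_def, commutatorElement_def, mul_assoc y, h.eq, mul_inv_rev]; group

theorem cm2 {G : Type} [Group G] {g z : G} (h : Commute z g) (y : G) : ⁅g, y * z⁆ = ⁅g, y⁆ := by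
  rw [← commutatorElement_inv, cm1 h, commutatorElement_inv]

theorem map_perf {G H : Type} [Group G] [Group H] (f : G →* H) {A : Subgroup G} {B : Subgroup H}
    (h : ∀ a ∈ A, f a ∈ B) {a : G} (ha : a ∈ ⁅A, A⁆) : f a ∈ ⁅B, B⁆ := by
  have := mem_map_of_mem f ha
  rw [map_commutator] at this
  exact commutator_mono (map_le_iff_le_comap.2 h) (map_le_iff_le_comap.2 h) this

theorem comm_fi {Γ : Type} [Group Γ] {G K : Subgroup Γ} (hK : K ≤ G) [Group.FG G]
    [h : (K.subgroupOf G).FiniteIndex] {s : Set Γ} (hs : closure s = K)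
    (ht : ∀ x ∈ s, IsOfFinOrder x) : (⁅K, K⁆.subgroupOf G).FiniteIndex := by
  have h1 : Group.FG K := Group.fg_of_surjective (f := (subgroupOfEquivOfLe hK).toMonoidHom)
    (subgroupOfEquivOfLe hK).surjective
  have h2 : Group.FG (Abelianization K) :=
    Group.fg_of_surjective (f := Abelianization.of) Quot.mk_surjective
  have h3 : Finite (Abelianization K) := CommGroup.finite_of_fg_isMulTorsion _ (by
    subst hs
    rintro ⟨x, hx⟩
    change IsOfFinOrder (Abelianization.of (⟨x, hx⟩ : closure s))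
    induction hx using closure_induction with
    | mem x hx => exact MonoidHom.isOfFinOrder _ (Submonoid.isOfFinOrder_coe.1 (ht x hx))
    | one => exact IsOfFinOrder.one
    | mul x y _ _ a b => exact a.mul b
    | inv x _ a => exact a.inv)
  have h4 : (_root_.commutator K).FiniteIndex := @finiteIndex_of_finite_quotient _ _ _ h3
  refine ⟨(relIndex_mul_relIndex _ K G (commutator_le_self K) hK).symm.trans_ne
    (mul_ne_zero ?_ h.1)⟩
  rw [← map_subtype_commutator, relIndex, subgroupOf, comap_map_eq_self_of_injective K.subtype_injective]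
  exact h4.1

variable {X S I : Type} {Q : ℕ → Type} [Group S] [MulAction S X] [∀ i, Group (Q i)]

/-- labels that are trivial after a place -/
def Fn (Q : ℕ → Type) [∀ i, Group (Q i)] (m : ℕ) : Subgroup (∀ i, Q i) := pi (Set.Ioi m) fun _ => ⊥

/-- truncation -/
def tr (m : ℕ) : (∀ i, Q i) →* ∀ i, Q i :=
  MonoidHom.mk' (fun q i => if i ≤ m then q i else 1) fun a b => funext fun i => by
    simp only [Pi.mul_apply]; split_ifs <;> simp

theorem tr_app (m : ℕ) (q : ∀ i, Q i) (i : ℕ) : tr m q i = if i ≤ m then q i else 1 := rfl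

theorem tr_Fn (m : ℕ) (q : ∀ i, Q i) : tr m q ∈ Fn Q m := fun _ hi => if_neg (not_le.2 hi)

theorem tr_succ (m : ℕ) (q : ∀ i, Q i) : tr (m + 1) q = tr m q * Dy.e Q (m + 1) (q _) :=
  funext fun i => by
    rcases eq_or_ne i (m + 1) with rfl | h
    · simp [tr_app, Dy.e]
    · simp [tr_app, Dy.e, h, show i ≤ m + 1 ↔ i ≤ m by omega]

theorem tr_eq {m : ℕ} {q : ∀ i, Q i} (h : q ∈ Fn Q m) : tr m q = q := funext fun i => by
  rw [tr_app]
  split_ifs with c
  exacts [rfl, (h i (not_le.1 c)).symm]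

instance [∀ i, Finite (Q i)] (m : ℕ) : Finite (Fn Q m) :=
  .of_injective (fun q (i : Set.Iic m) => q.1 i) fun q r h => Subtype.ext (funext fun i =>
    (le_or_gt i m).elim (fun c => congrFun h ⟨i, c⟩) fun c => (q.2 i c).trans (r.2 i c).symm)

namespace Dy

variable (D : Dy X S I Q)

/-- the generators of bounded order -/
noncomputable def b (m : ℕ) : (I ⊕ I) ⊕ I ⊕ I → Po X S := Sum.elim (D.u m) (D.R m)

/-- the groups -/
def G (m : ℕ) : Subgroup (Po X S) := closure (Set.range (D.b m) ∪ D.c m '' Fn Q m)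

/-- the branching subgroups -/
def K (m : ℕ) : Subgroup (Po X S) := closure {k | ∃ g ∈ D.G m, ∃ j, k = g * D.b m j * g⁻¹}

/-- the groups of decorations -/
def U (m : ℕ) : Subgroup (Po X S) := closure (Set.range (D.u m))

variable {D} {m : ℕ}

theorem rt_U {s : S} (h : s ∈ D.A m) : D.rt m s ∈ D.U m := by
  refine (closure_le ((D.U m).comap (D.rt m))).2 ?_ (D.gA2 m ▸ h)
  rintro _ ⟨i, rfl⟩
  exact subset_closure ⟨.inl i, rfl⟩

theorem ce_U (a : Q (m + 1)) : D.c m (e Q _ a) ∈ D.U m := by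
  refine (closure_le ((D.U m).comap ((D.c m).comp (e Q _)))).2 ?_ (D.gQ2 _ ▸ mem_top a)
  rintro _ ⟨i, rfl⟩
  exact subset_closure ⟨.inr i, rfl⟩

theorem gA_A (i : I) : D.gA m i ∈ D.A m := D.gA2 m ▸ subset_closure ⟨i, rfl⟩

theorem U_perf : D.U m ≤ ⁅D.U m, D.U m⁆ := by
  refine (closure_le _).2 ?_
  rintro _ ⟨i | i, rfl⟩
  · exact map_perf _ (fun _ => rt_U) (D.perf m (gA_A i))
  · exact map_perf ((D.c m).comp (e Q _)) (fun a _ => ce_U a) (D.perfQ _ trivial)

theorem b_K (j) : D.b m j ∈ D.K m := subset_closure ⟨1, one_mem _, j, by simp⟩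
theorem b_G (j) : D.b m j ∈ D.G m := subset_closure (.inl ⟨j, rfl⟩)
theorem c_G {q : ∀ i, Q i} (h : q ∈ Fn Q m) : D.c m q ∈ D.G m := subset_closure (.inr ⟨q, h, rfl⟩)

theorem G_le {M : Subgroup (Po X S)} (h1 : ∀ j, D.b m j ∈ M) (h2 : ∀ q ∈ Fn Q m, D.c m q ∈ M) :
    D.G m ≤ M := (closure_le _).2 (by
  rintro _ (⟨j, rfl⟩ | ⟨q, hq, rfl⟩)
  exacts [h1 j, h2 q hq])

theorem K_le {M : Subgroup (Po X S)} (h : ∀ g ∈ D.G m, ∀ j, g * D.b m j * g⁻¹ ∈ M) :
    D.K m ≤ M := (closure_le _).2 (by rintro _ ⟨g, hg, j, rfl⟩; exact h g hg j)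

theorem K_G : D.K m ≤ D.G m := K_le fun _ hg j => mul_mem (mul_mem hg (b_G j)) (inv_mem hg)

theorem U_K : D.U m ≤ D.K m := (closure_le _).2 (by rintro _ ⟨j, rfl⟩; exact b_K (.inl j))

theorem K_conj {g k : Po X S} (hg : g ∈ D.G m) (hk : k ∈ D.K m) : g * k * g⁻¹ ∈ D.K m :=
  K_le (M := (D.K m).comap (MulAut.conj g).toMonoidHom) (fun g' hg' j =>
    subset_closure ⟨g * g', mul_mem hg hg', j, by simp [mul_assoc]⟩) hk

theorem c_G' {q : ∀ i, Q i} (h : q ∈ Fn Q (m + 1)) : D.c m q ∈ D.G m := by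
  rw [← tr_eq h, tr_succ, map_mul]
  exact mul_mem (c_G (tr_Fn _ _)) (K_G (U_K (ce_U _)))

theorem dec {g : Po X S} (h : g ∈ D.G m) : ∃ q : Fn Q m, (D.c m q)⁻¹ * g ∈ D.K m := by
  induction h using closure_induction with
  | mem x hx =>
    rcases hx with ⟨j, rfl⟩ | ⟨q, hq, rfl⟩
    exacts [⟨1, by simpa using b_K j⟩, ⟨⟨q, hq⟩, by simp⟩]
  | one => exact ⟨1, by simp⟩
  | mul x y _ _ a b =>
    obtain ⟨q, a⟩ := a
    obtain ⟨r, b⟩ := b
    exact ⟨q * r, by simpa [mul_assoc] using mul_mem (K_conj (inv_mem (c_G r.2)) a) b⟩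
  | inv x _ a => exact a.elim fun q a => ⟨q⁻¹, by simpa [mul_assoc] using K_conj (c_G q.2) (inv_mem a)⟩

theorem b_pow : ∀ j, D.b m j ^ 48 = 1
  | .inl j => D.u_pow m j
  | .inr j => D.R_pow m j

theorem b_lab : ∀ j, (D.b m j, 1) ∈ D.Lab m
  | .inl j => D.sm_of (D.u_bad m j)
  | .inr j => Sm.of fun n => D.R_bad j n m

theorem c_lab (q : ∀ i, Q i) : (D.c m q, q) ∈ D.Lab m :=
  D.sm_of fun v hv => (D.c_bad m (fun _ _ => rfl) v hv).elim

theorem c_K {q : ∀ i, Q i} (h : D.c m q ∈ D.K m) : ∀ i ≤ m, q i = 1 := by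
  have h1 := K_le (M := (D.Lab m).comap (MonoidHom.inl _ _)) (fun g hg j => ?_) h
  · exact D.Lab_triv (by simpa using mul_mem (inv_mem (mem_comap.1 h1)) (c_lab q))
  obtain ⟨p, hp, rfl⟩ := G_le (M := (D.Lab m).map (MonoidHom.fst _ _))
    (fun j => ⟨_, b_lab j, rfl⟩) (fun q _ => ⟨_, c_lab q, rfl⟩) hg
  convert mul_mem (mul_mem hp (b_lab j)) (inv_mem hp) using 1
  rw [mem_comap, show p * (D.b m j, 1) * p⁻¹ = (p.1 * D.b m j * p.1⁻¹, 1) from
    Prod.ext rfl (by simp)]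
  rfl

variable (D m) in
/-- one step of self-similarity -/
def up : Subgroup (Po X S) where
  carrier := {g | g [] ∈ D.A m ∧ ∀ x, sec g [x] ∈ if D.lv x = m then D.G (m + 1) else ⊥}
  one_mem' := ⟨one_mem _, fun _ => one_mem _⟩
  mul_mem' {g h} a b := ⟨mul_mem a.1 b.1, fun x =>
    sec1 g h x ▸ mul_mem (D.lv_smul (h []) x ▸ a.2 _) (b.2 x)⟩
  inv_mem' {g} a := ⟨(inv_app g []).symm ▸ inv_mem a.1, fun x => by
    rw [← smul_inv_smul g [x], sec_inv]
    exact inv_mem (D.lv_smul (g⁻¹ []) x ▸ a.2 _)⟩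

theorem G_up : D.G m ≤ D.up m := by
  have h : ∀ q ∈ Fn Q (m + 1), D.c m q ∈ D.up m := fun q hq => ⟨D.c_nil m q ▸ D.tA m q, fun x => by
    rw [sec_c]
    split_ifs
    exacts [c_G hq, rfl]⟩
  refine G_le ?_ fun q hq => h q fun i hi => hq i (Nat.lt_of_succ_lt hi)
  rintro ((i | i) | j)
  · exact ⟨by simpa [b, u] using gA_A i, fun x => by simp [b, u]⟩
  · exact h _ fun i hi => Pi.mulSingle_eq_of_ne (ne_of_gt hi) _
  · refine ⟨by simp [b], fun x => ?_⟩
    rw [b, Sum.elim_inr, sec_R]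
    by_cases c1 : x = D.a m
    · simpa [c1, D.la, b] using b_G (.inl j)
    by_cases c2 : x = D.o m
    · simpa [c2, D.lo, (D.ao m).symm, b] using b_G (.inr j)
    · simp [c1, c2]

open Classical in
theorem sec_G {g : Po X S} (h : g ∈ D.G m) :
    ∀ v, sec g v ∈ if D.val m v then D.G (m + v.length) else ⊥
  | [] => by simpa [val]
  | x :: v => by
    have := sec_G h v
    rw [sec_cons, val]
    split_ifs at this with c
    · simpa [c, add_assoc] using (G_up this).2 x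
    · rw [mem_bot.1 this]; exact one_mem _

theorem sec_val {g : Po X S} (h : g ∈ D.G m) {v : List X} (hv : D.val m v) :
    sec g v ∈ D.G (m + v.length) := by simpa [hv] using sec_G h v

theorem sec_inval {g : Po X S} (h : g ∈ D.G m) {v : List X} (hv : ¬ D.val m v) : sec g v = 1 := by
  simpa [hv] using sec_G h v

theorem app_A {g : Po X S} (h : g ∈ D.G m) (v : List X) : g v ∈ D.A (m + v.length) := by
  by_cases hv : D.val m v
  · exact (G_up (sec_val h hv)).1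
  · exact (show 1 = g v from (congrFun (sec_inval h hv) []).symm) ▸ one_mem _

theorem loc_U {k : Po X S} (h : k ∈ D.U (m + 1)) : loc [D.a m] k ∈ D.K m := by
  obtain ⟨s, s1, s2, s3⟩ := D.mv m
  let M := ((D.K m).comap (MonoidHom.noncommCoprod _ _ (loc_comm1 (D.ao m)))).map
    (MonoidHom.fst _ _)
  have h1 : D.U (m + 1) ≤ M := (closure_le _).2 (by
    rintro _ ⟨j, rfl⟩
    exact ⟨(_, _), mem_comap.2 (Set.mem_of_eq_of_mem (D.R_eq m j).symm (b_K (.inr j))), rfl⟩)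
  refine (commutator_le (H₃ := (D.K m).comap (loc [D.a m]))).2 ?_
    (commutator_mono h1 h1 (U_perf h))
  rintro _ ⟨x, hx, rfl⟩ _ ⟨y, hy, rfl⟩
  have c1 : ∀ z, Commute (loc [D.o m] z) (D.rt m s) := fun z =>
    (mul_inv_eq_iff_eq_mul.1 (by rw [rt_loc, s2])).symm
  refine mem_comap.2 (grig (g := D.rt m s) (a := x.1) (b := y.1)
    (fun h => s3 (by simpa using h)) ?_)
  have c2 := (loc_comm1 (D.ao m) x.1 y.2).symm
  rw [← cm2 (z := loc [D.o m] y.2) (g := ⁅_, _⁆) (((c2.mul_right (c1 _)).mul_right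
    c2.inv_right).mul_right (c1 _).inv_right), ← cm1 (c1 x.2)]
  exact commutator_le_self _ (commutator_mem_commutator (commutator_le_self _
    (commutator_mem_commutator hx (U_K (rt_U s1)))) hy)

theorem loc_mv {x y : X} {k : Po X S} (hx : D.lv x = m) (hy : D.lv y = m)
    (h : loc [x] k ∈ D.K m) : loc [y] k ∈ D.K m := by
  obtain ⟨s, hs, rfl⟩ := D.trans x y (hx.trans hy.symm)
  exact D.rt_loc m s x k ▸ K_conj (K_G (U_K (rt_U (hx ▸ hs)))) h

theorem loc_b : ∀ j, loc [D.o m] (D.b (m + 1) j) ∈ D.K m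
  | .inl j => loc_mv (D.la m) (D.lo m) (loc_U (subset_closure ⟨j, rfl⟩))
  | .inr j => (eq_inv_mul_of_mul_eq (D.R_eq m j).symm).symm ▸
    mul_mem (inv_mem (loc_U (subset_closure ⟨j, rfl⟩))) (b_K (.inr j))

theorem rep {g : Po X S} (h : g ∈ D.G (m + 1)) :
    ∃ g' ∈ D.G m, g' • [D.o m] = [D.o m] ∧ sec g' [D.o m] = g := by
  induction h using closure_induction with
  | mem x hx =>
    rcases hx with ⟨j, rfl⟩ | ⟨q, hq, rfl⟩
    · exact ⟨_, K_G (loc_b j), St_fix (loc_St _ _) le_rfl, sec_loc _ _⟩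
    · exact ⟨_, c_G' hq, by simp [D.t_o], by simp [sec_c, D.lo]⟩
  | one => exact ⟨1, one_mem _, one_smul _ _, rfl⟩
  | mul x y _ _ a b =>
    obtain ⟨a, a1, a2, rfl⟩ := a
    obtain ⟨b, b1, b2, rfl⟩ := b
    exact ⟨a * b, mul_mem a1 b1, by rw [mul_smul, b2, a2], by rw [sec_mul, b2]⟩
  | inv x _ a =>
    obtain ⟨a, a1, a2, rfl⟩ := a
    exact ⟨a⁻¹, inv_mem a1, inv_smul_eq_iff.2 a2.symm, by rw [← sec_inv, a2]⟩

theorem loc_K1 {x : X} (hx : D.lv x = m) {k : Po X S} (hk : k ∈ D.K (m + 1)) :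
    loc [x] k ∈ D.K m := by
  refine loc_mv (D.lo m) hx (K_le (M := (D.K m).comap (loc [D.o m])) (fun g hg j => ?_) hk)
  obtain ⟨g', h1, h2, rfl⟩ := rep hg
  have := K_conj h1 (loc_b j)
  rwa [conj_loc, h2] at this

theorem loc_K : ∀ {v : List X}, D.val m v → ∀ k ∈ D.K (m + v.length), loc v k ∈ D.K m
  | [], _, k, hk => (loc_nil k).symm ▸ hk
  | x :: v, h, k, hk => (loc_cons x v k).symm ▸ loc_K h.2 _ (loc_K1 h.1 hk)

theorem K_trans : ∀ {v w : List X}, D.val m v → D.val m w → v.length = w.length →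
    ∃ k ∈ D.K m, k • v = w
  | [], [], _, _, _ => ⟨1, one_mem _, rfl⟩
  | x :: v, y :: w, hv, hw, h => by
    obtain ⟨k, hk, rfl⟩ := K_trans hv.2 hw.2 (by simpa using h)
    have e := (D.lv_smul (k v) x).trans (hv.1.trans (len k v ▸ rfl : _ = m + (k • v).length))
    obtain ⟨s, hs, rfl⟩ := D.trans (k v • x) y (e.trans hw.1.symm)
    refine ⟨_, mul_mem (loc_K hw.2 _ (U_K (rt_U (e ▸ hs)))) hk, ?_⟩
    rw [mul_smul, smul_cons, smul_cons, St_fix (loc_St _ _) le_rfl]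
    exact congrArg (· • _ :: _) ((congrFun (sec_loc (k • v) _) []).trans (D.rt_nil _ s))

variable [Finite I] [∀ i, Finite (Q i)]

instance G_fg : Group.FG (D.G m) := (Group.fg_iff_subgroup_fg _).2 ((fg_iff _).2
  ⟨_, rfl, (Set.finite_range _).union (Set.Finite.image _ (inferInstance : Finite (Fn Q m)))⟩)

theorem KK_fi : (⁅D.K m, D.K m⁆.subgroupOf (D.G m)).FiniteIndex := by
  choose f hf using fun g : D.G m => dec g.2
  have : ((D.K m).subgroupOf (D.G m)).FiniteIndex := finiteIndex_of_fun f fun a b h => by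
    simpa [mem_subgroupOf, mul_assoc, h] using mul_mem (inv_mem (hf a)) (hf b)
  refine comm_fi K_G rfl ?_
  rintro _ ⟨g, -, j, rfl⟩
  exact isOfFinOrder_iff_pow_eq_one.2 ⟨48, by simp, by simp [b_pow]⟩

end Dy

end Pool.Agent.P.MP_042d8e_al.UK
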