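import Pool.Agent.P.MP_042d8e_al.UK.Brn
import Pool.Agent.P.MP_042d8e_al.UK.Alt

/-! The alphabets of the construction. -/

set_option autoImplicit false

open scoped commutatorElement

namespace Pool.Agent.P.MP_042d8e_al.UK

open CK Subgroup Equiv Equiv.Perm Sum

/-- the labels visible at level `l` -/
def Rn (l : ℕ) : Type := (i : Fin (l + 1)) → Qn i

instance (l : ℕ) : Group (Rn l) := Pi.group
instance (l : ℕ) : Fintype (Rn l) := Pi.instFintype
noncomputable instance (l : ℕ) : DecidableEq (Rn l) := Classical.decEq _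

/-- the alphabet of level `l` -/
abbrev Yn (l : ℕ) : Type := Al (Rn l) Empty

/-- all letters -/
def Lt : Type := Σ l, Yn l

/-- the alternating group of level `l` -/
abbrev An (l : ℕ) : Type := alternatingGroup (Yn l)

/-- the labels of portraits -/
abbrev Sn : Type := ∀ l, An l

noncomputable instance : MulAction Sn Lt where
  smul s x := ⟨x.1, s x.1 • x.2⟩
  one_smul _ := rfl
  mul_smul _ _ _ := rfl

/-- the group of level `l` -/
noncomputable def ι (l : ℕ) : alternatingGroup (Yn l) →* Sn := MonoidHom.mulSingle An l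

/-- the letters of level `l` -/
def lt (l : ℕ) (y : Yn l) : Lt := ⟨l, y⟩

theorem ι_lt (l : ℕ) (s : alternatingGroup (Yn l)) (y : Yn l) : ι l s • lt l y = lt l (s • y) :=
  congrArg (fun s : alternatingGroup (Yn l) => lt l (s • y)) (Pi.mulSingle_eq_same (M := An) l s)

theorem lt_inj {l : ℕ} : Function.Injective (lt l) := sigma_mk_injective

theorem al_card (Y : Type) [Fintype Y] : 5 ≤ Nat.card (Al Y Empty) := by simp

theorem exists_dy : Nonempty (Dy Lt Sn (Fin 2 × Bool) Qn) := by
  have c : ∀ (Y : Type) [Fintype Y], 2 ≤ Fintype.card (Al Y Empty) := fun Y _ => by simp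
  choose gA a1 a2 using fun l => alt_gen (X := Yn l) (c _)
  choose gQ b1 b2 using fun l => alt_gen (X := Al (Fin l) Empty) (c _)
  let ρ : ∀ l, (∀ i, Qn i) →* Rn l := fun l =>
    MonoidHom.pi fun i : Fin (l + 1) => Pi.evalMonoidHom Qn i
  let δ := fun l => (ι l).comp ((db _ Empty).comp (MulAction.toPermHom (Rn l) _))
  have hδ : ∀ l, Function.Injective (δ l) := fun l =>
    (Pi.mulSingle_injective (M := An) l).comp (db_inj.comp MulAction.toPerm_injective)
  exact ⟨{
    lv := Sigma.fst
    lv_smul := fun _ _ => rfl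
    fin := fun l => (Set.finite_range (lt l)).subset (by rintro ⟨_, y⟩ rfl; exact ⟨y, rfl⟩)
    A := fun l => (ι l).range
    finA := fun l => (Set.finite_range _).to_subtype
    faith := by
      rintro l _ ⟨s, rfl⟩ h
      rw [eq_of_smul_eq_smul (m₁ := s) (m₂ := 1) fun y => lt_inj ((ι_lt l s y).symm.trans (h _ rfl)),
        map_one]
    perf := fun l => by
      rw [MonoidHom.range_eq_map, ← map_commutator, ← _root_.commutator_def,
        commutator_alternatingGroup_eq_top (al_card _)]
    trans := by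
      rintro ⟨l, x⟩ ⟨_, y⟩ rfl
      have := alternatingGroup.isPretransitive_of_three_le_card (Yn l) ((al_card _).trans' (by simp))
      obtain ⟨s, rfl⟩ := MulAction.exists_smul_eq (alternatingGroup (Yn l)) x y
      exact ⟨_, ⟨s, rfl⟩, ι_lt l s x⟩
    t := fun l => (δ l).comp (ρ l)
    tA := fun l q => ⟨_, rfl⟩
    ker := fun l q => (map_eq_one_iff _ (hδ l)).trans ⟨fun h i hi =>
      congrFun h ⟨i, Nat.lt_succ_of_le hi⟩, fun h => funext fun i => h i i.is_le⟩
    o := fun l => lt l (inr (inr none))
    a := fun l => lt l (inr (inl 0))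
    lo := fun _ => rfl
    la := fun _ => rfl
    ao := fun l => lt_inj.ne (by simp)
    t_o := fun l q => ι_lt l _ _
    mv := fun l => ⟨_, ⟨a5 _ _ ⟨swap 0 2 * swap 3 4, by simp⟩, rfl⟩, ι_lt l _ _,
      (ι_lt l _ _).trans_ne (lt_inj.ne (by simp; decide))⟩
    gA := fun l i => ι l (gA l i)
    gA1 := fun l i => by rw [← map_pow, a1, map_one]
    gA2 := fun l => by
      rw [MonoidHom.range_eq_map, ← a2, MonoidHom.map_closure, ← Set.range_comp]; rfl
    gQ := gQ
    gQ1 := b1
    gQ2 := b2
    perfQ := fun l => (commutator_alternatingGroup_eq_top (al_card _)).ge }⟩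

end Pool.Agent.P.MP_042d8e_al.UK
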